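import Mathlib
import Pool.Agent.Lib.BP.Main

/-!
Subgroup membership in the semidirect product of two free groups of rank at least three is undecidable as soon as one nontrivial element of the acting group acts, up to an inner automorphism, by an automorphism built from an admissible family of blocks.
-/

set_option autoImplicit false

namespace Pool.Agent.Results.MP_58757f_al.HierarchicalElement

open Pool.Agent.BP

/-- Let `3 ≤ n`, let `φ` be any action of `F_n` on `F_n` and let `τ` be a nontrivial element of the acting group. Suppose that for some `g` the automorphism `x ↦ g φ(τ)(x) g⁻¹` of `F_n` is built (`Built`) from an admissible (`Admissible`) set `𝓑` of subgroups. Then the occurrence problem of `F_n ⋊ F_n` is undecidable. -/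
theorem result (n : ℕ) (_hn : 3 ≤ n) (φ : FreeGroup (Fin n) →* MulAut (FreeGroup (Fin n)))
    (τ : FreeGroup (Fin n)) (hτ : τ ≠ 1) (g : FreeGroup (Fin n))
    (𝓑 : Set (Subgroup (FreeGroup (Fin n)))) (h𝓑 : Admissible n 𝓑)
    (h : Built 𝓑 ⊤ (MulAut.conj g * φ τ)) :
      ¬ ComputablePred
        (fun p : List (List ((Fin n ⊕ Fin n) × Bool)) × List ((Fin n ⊕ Fin n) × Bool) =>
          (FreeGroup.lift
              (Sum.elim
                (fun i : Fin n =>
                  (SemidirectProduct.inl (FreeGroup.of i) :
                    SemidirectProduct (FreeGroup (Fin n)) (FreeGroup (Fin n)) φ))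
                (fun i : Fin n =>
                  (SemidirectProduct.inr (FreeGroup.of i) :
                    SemidirectProduct (FreeGroup (Fin n)) (FreeGroup (Fin n)) φ)))
              (FreeGroup.mk p.2)) ∈
            Subgroup.closure
              {g : SemidirectProduct (FreeGroup (Fin n)) (FreeGroup (Fin n)) φ |
                ∃ w ∈ p.1,
                  FreeGroup.lift
                      (Sum.elim
                        (fun i : Fin n =>
                          (SemidirectProduct.inl (FreeGroup.of i) :
                            SemidirectProduct (FreeGroup (Fin n)) (FreeGroup (Fin n)) φ))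
                        (fun i : Fin n =>
                          (SemidirectProduct.inr (FreeGroup.of i) :
                            SemidirectProduct (FreeGroup (Fin n)) (FreeGroup (Fin n)) φ)))
                      (FreeGroup.mk w) = g}) :=
  Pool.Agent.BP.main n (by omega) φ τ hτ g 𝓑 h𝓑 h

end Pool.Agent.Results.MP_58757f_al.HierarchicalElement
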