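import Mathlib
import Pool.Agent.Lib.Occ.General

/-!
Subgroup membership in the semidirect product of two free groups of rank at least three is undecidable as soon as a nonabelian subgroup of the acting group virtually preserves a free quotient of rank two.
-/

set_option autoImplicit false

namespace Pool.Agent.Results.MP_58757f_al.InvariantQuotient

/-- Let `3 ≤ n` and let `φ` be an action of `F_n` on `F_n`. Suppose that some nonabelian subgroup `P` of the acting group, some finitely generated subgroup `N₁` of the normal `F_n` and some homomorphism `θ` from `N₁` onto `F_2` are such that for every `f ∈ P` some positive power of `f`, composed with some inner automorphism, preserves `N₁` and the kernel of `θ`. Then the occurrence problem of `F_n ⋊ F_n` is undecidable. -/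
theorem result (n : ℕ) (_hn : 3 ≤ n) (φ : FreeGroup (Fin n) →* MulAut (FreeGroup (Fin n)))
    (P : Subgroup (FreeGroup (Fin n))) (hP : ∃ a ∈ P, ∃ b ∈ P, a * b ≠ b * a)
    (N₁ : Subgroup (FreeGroup (Fin n))) (hfg : N₁.FG)
    (θ : N₁ →* FreeGroup (Fin 2)) (hθ : Function.Surjective θ)
    (h : ∀ f ∈ P, ∃ k : ℕ, 1 ≤ k ∧ ∃ g : FreeGroup (Fin n),
      ∃ hN : (∀ x, g * φ (f ^ k) x * g⁻¹ ∈ N₁ ↔ x ∈ N₁),
        ∀ x : N₁, θ ⟨g * φ (f ^ k) x * g⁻¹, (hN x).2 x.2⟩ = 1 ↔ θ x = 1) :
      ¬ ComputablePred
        (fun p : List (List ((Fin n ⊕ Fin n) × Bool)) × List ((Fin n ⊕ Fin n) × Bool) =>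
          (FreeGroup.lift
              (Sum.elim
                (fun i : Fin n =>
                  (SemidirectProduct.inl (FreeGroup.of i) :
                    SemidirectProduct (FreeGroup (Fin n)) (FreeGroup (Fin n)) φ))
                (fun i : Fin n =>
                  (SemidirectProduct.inr (FreeGroup.of i) :
                    SemidirectProduct (FreeGroup (Fin n)) (FreeGroup (Fin n)) φ)))
              (FreeGroup.mk p.2)) ∈
            Subgroup.closure
              {g : SemidirectProduct (FreeGroup (Fin n)) (FreeGroup (Fin n)) φ |
                ∃ w ∈ p.1,
                  FreeGroup.lift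
                      (Sum.elim
                        (fun i : Fin n =>
                          (SemidirectProduct.inl (FreeGroup.of i) :
                            SemidirectProduct (FreeGroup (Fin n)) (FreeGroup (Fin n)) φ))
                        (fun i : Fin n =>
                          (SemidirectProduct.inr (FreeGroup.of i) :
                            SemidirectProduct (FreeGroup (Fin n)) (FreeGroup (Fin n)) φ)))
                      (FreeGroup.mk w) = g}) :=
  Pool.Agent.Occ.criterion_general n φ P hP N₁ hfg θ hθ h

end Pool.Agent.Results.MP_58757f_al.InvariantQuotient
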