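import Mathlib
import Pool.Agent.Lib.Occ.RankTwo

/-!
Subgroup membership in the semidirect product of two free groups of rank two is undecidable, for every action.
-/

set_option autoImplicit false

namespace Pool.Agent.Results.MP_58757f_al.RankTwo

/-- For every action of F_2 on F_2, no algorithm decides, given finitely many words and one more word in the generators of F_2 ⋊ F_2, whether that word lies in the subgroup generated by the others. -/
theorem result :
    ∀ φ : FreeGroup (Fin 2) →* MulAut (FreeGroup (Fin 2)),
      ¬ ComputablePred
        (fun p : List (List ((Fin 2 ⊕ Fin 2) × Bool)) × List ((Fin 2 ⊕ Fin 2) × Bool) =>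
          (FreeGroup.lift
              (Sum.elim
                (fun i : Fin 2 =>
                  (SemidirectProduct.inl (FreeGroup.of i) :
                    SemidirectProduct (FreeGroup (Fin 2)) (FreeGroup (Fin 2)) φ))
                (fun i : Fin 2 =>
                  (SemidirectProduct.inr (FreeGroup.of i) :
                    SemidirectProduct (FreeGroup (Fin 2)) (FreeGroup (Fin 2)) φ)))
              (FreeGroup.mk p.2)) ∈
            Subgroup.closure
              {g : SemidirectProduct (FreeGroup (Fin 2)) (FreeGroup (Fin 2)) φ |
                ∃ w ∈ p.1,
                  FreeGroup.lift
                      (Sum.elim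
                        (fun i : Fin 2 =>
                          (SemidirectProduct.inl (FreeGroup.of i) :
                            SemidirectProduct (FreeGroup (Fin 2)) (FreeGroup (Fin 2)) φ))
                        (fun i : Fin 2 =>
                          (SemidirectProduct.inr (FreeGroup.of i) :
                            SemidirectProduct (FreeGroup (Fin 2)) (FreeGroup (Fin 2)) φ)))
                      (FreeGroup.mk w) = g}) :=
  fun φ => Pool.Agent.Occ.rank_two φ

end Pool.Agent.Results.MP_58757f_al.RankTwo
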